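import Pool.Agent.W360.SG.Conc

set_option autoImplicit false

/-!
# The semigroup on the half-line
-/

namespace Pool.Agent.W360.SG

open Filter Topology Set MeasureTheory

theorem M_comm (φ ψ : Mul1) (f : L2) : M φ (M ψ f) = M ψ (M φ f) := by
  refine Lp.ext ?_
  filter_upwards [M_coe φ (M ψ f), M_coe ψ f, M_coe ψ (M φ f), M_coe φ f] with x h1 h2 h3 h4
  rw [h1, h2, h3, h4]; ring

theorem cut_idem (t : ℝ) (f : L2) : M (cut t) (M (cut t) f) = M (cut t) f := by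
  refine Lp.ext ?_
  filter_upwards [M_coe (cut t) (M (cut t) f), M_coe (cut t) f] with x h1 h2
  rw [h1, h2]
  rcases lt_or_ge x t with h | h
  · rw [cut_lt t h]; simp
  · rw [cut_ge t h]; simp

theorem near_id (h : ℝ) (hh : 0 ≤ h) (f : L2) (hf : M (cut 0) f = 0) :
    ‖T0 h hh f - f‖ ≤ h * ‖f‖ + ‖U h f - f‖ := by
  have h0 := M_coe (cut 0) f
  rw [hf] at h0
  have h1 : ‖T0 h hh f - U h f‖ ≤ h * ‖U h f‖ := by
    refine Lp.norm_le_mul_norm_of_ae_le_mul ?_
    filter_upwards [T0_coe h hh f, U_coe h f, ae_sub h0 h,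
      ae_sub (Lp.coeFn_zero ℂ 2 (volume : Measure ℝ)) h, Lp.coeFn_sub (T0 h hh f) (U h f)]
      with x h1 h2 h3 h4 h5
    rw [h5, Pi.sub_apply, h1, h2]
    rcases lt_or_ge x h with h' | h'
    · rw [h4, cut_lt 0 (by linarith)] at h3
      simp only [Pi.zero_apply, Complex.ofReal_one, one_mul] at h3
      rw [← h3]; simp
    · have p2 : 0 < 1 + x := by linarith
      have e : ((ker h hh).φ x : ℂ) * f (x - h) - f (x - h) =
          ((-(h / (1 + x)) : ℝ) : ℂ) * f (x - h) := by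
        rw [ker_ge h hh h']
        have : (1 + x - h) / (1 + x) = 1 - h / (1 + x) := by field_simp
        rw [this]; push_cast; ring
      rw [e, norm_mul, Complex.norm_real, Real.norm_eq_abs, abs_neg,
        abs_of_nonneg (div_nonneg hh p2.le)]
      refine mul_le_mul_of_nonneg_right ?_ (norm_nonneg _)
      exact div_le_self hh (by linarith)
  rw [norm_U] at h1
  calc ‖T0 h hh f - f‖ = ‖(T0 h hh f - U h f) + (U h f - f)‖ := by congr 1; abel
    _ ≤ ‖T0 h hh f - U h f‖ + ‖U h f - f‖ := norm_add_le _ _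
    _ ≤ _ := add_le_add_left h1 _

/-- functions supported on the half-line -/
noncomputable def S : Submodule ℂ L2 := LinearMap.ker (M (cut 0) : L2 →ₗ[ℂ] L2)

theorem mem_S (f : L2) : f ∈ S ↔ M (cut 0) f = 0 := LinearMap.mem_ker

noncomputable instance : CompleteSpace S := by
  have : IsClosed (S : Set L2) := (M (cut 0)).isClosed_ker
  exact this.completeSpace_coe

/-- the semigroup -/
noncomputable def T (t : ℝ) : S →L[ℂ] S :=
  ((T0 (max t 0) (le_max_right t 0)).comp S.subtypeL).codRestrict S (fun _ =>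
    (mem_S _).2 (cut_T0 _ _ _ _ (le_max_right t 0)))

theorem T_coe (t : ℝ) (ht : 0 ≤ t) (f : S) : ((T t f : S) : L2) = T0 t ht f := by
  have h : ∀ u (hu : 0 ≤ u), u = t → T0 u hu (f : L2) = T0 t ht f := by
    rintro u hu rfl; rfl
  exact h _ _ (max_eq_left ht)

/-- the cut-offs -/
noncomputable def Q (t : ℝ) : S →L[ℂ] S :=
  ((M (cut t)).comp S.subtypeL).codRestrict S (fun f => by
    rw [mem_S]
    have h := (mem_S _).1 f.2
    show M (cut 0) (M (cut t) (f : L2)) = 0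
    rw [M_comm, h, map_zero])

theorem Q_coe (t : ℝ) (f : S) : ((Q t f : S) : L2) = M (cut t) f := rfl

theorem T_zero : T 0 = ContinuousLinearMap.id ℂ S := by
  ext1 f
  apply Subtype.ext
  rw [T_coe 0 le_rfl, T0_zero _ ((mem_S _).1 f.2)]
  rfl

theorem T_add (s t : ℝ) (hs : 0 ≤ s) (ht : 0 ≤ t) : T (s + t) = (T s).comp (T t) := by
  ext1 f
  apply Subtype.ext
  rw [T_coe _ (add_nonneg hs ht), T0_add s t hs ht, ContinuousLinearMap.comp_apply, T_coe s hs,
    T_coe t ht]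

theorem T_norm (t : ℝ) (ht : 0 ≤ t) (f : S) : ‖T t f‖ ≤ ‖f‖ := by
  have := norm_T0 t ht f
  rw [← T_coe t ht f] at this
  exact this

theorem T_diff (f : S) {s t : ℝ} (hs : 0 ≤ s) (hst : s ≤ t) :
    ‖T t f - T s f‖ ≤ (t - s) * ‖f‖ + ‖U (t - s) f - (f : L2)‖ := by
  have h0 : 0 ≤ t - s := sub_nonneg.2 hst
  have h1 : T t = (T s).comp (T (t - s)) := by
    rw [← T_add s (t - s) hs h0]; congr 1; ring
  rw [h1, ContinuousLinearMap.comp_apply, ← map_sub]
  refine (T_norm s hs _).trans ?_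
  have h2 := near_id (t - s) h0 f ((mem_S _).1 f.2)
  rw [← T_coe (t - s) h0 f] at h2
  exact h2

theorem T_cont (f : S) : ContinuousOn (fun t : ℝ => T t f) (Ici 0) := by
  intro s hs
  have hs' : 0 ≤ s := hs
  rw [ContinuousWithinAt, tendsto_iff_norm_sub_tendsto_zero]
  have hG : Tendsto (fun h : ℝ => |h| * ‖f‖ + ‖U |h| (f : L2) - (f : L2)‖) (𝓝 0) (𝓝 0) := by
    have h1 : Tendsto (fun h : ℝ => |h|) (𝓝 0) (𝓝 0) := by
      have : Tendsto (fun h : ℝ => |h|) (𝓝 0) (𝓝 |(0:ℝ)|) := continuous_abs.tendsto 0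
      rwa [abs_zero] at this
    have h2 := (U_cont (f : L2)).comp h1
    have h3 := (tendsto_iff_norm_sub_tendsto_zero.1 h2)
    have h4 := (h1.mul_const ‖f‖).add h3
    simpa using h4
  have hG' : Tendsto (fun t : ℝ => |t - s| * ‖f‖ + ‖U |t - s| (f : L2) - (f : L2)‖)
      (𝓝[Ici 0] s) (𝓝 0) := by
    have h1 : Tendsto (fun t : ℝ => t - s) (𝓝[Ici 0] s) (𝓝 0) := by
      have : Tendsto (fun t : ℝ => t - s) (𝓝 s) (𝓝 (s - s)) :=
        (continuous_id.sub continuous_const).tendsto s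
      rw [sub_self] at this
      exact this.mono_left nhdsWithin_le_nhds
    exact hG.comp h1
  refine squeeze_zero' (Filter.Eventually.of_forall fun t => norm_nonneg _) ?_ hG'
  filter_upwards [self_mem_nhdsWithin] with t ht
  have ht' : 0 ≤ t := ht
  rcases le_total s t with h | h
  · rw [abs_of_nonneg (sub_nonneg.2 h)]
    exact T_diff f hs' h
  · rw [norm_sub_rev, abs_of_nonpos (sub_nonpos.2 h), neg_sub]
    exact T_diff f ht' h

theorem gen_bound (x y : S)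
    (hy : Tendsto (fun h : ℝ => ((h : ℂ)⁻¹) • (T h x - x)) (𝓝[>] 0) (𝓝 y))
    (μ : ℂ) (hμ : μ.re < 0) : (1 / 32) * |μ.re| * ‖x‖ ≤ ‖μ • x - y‖ := by
  refine resolvent_bound T T_zero T_add T_cont ?_ Q ?_ ?_ ?_ hy hμ
  · intro t ht
    refine ContinuousLinearMap.opNorm_le_bound _ zero_le_one (fun f => ?_)
    rw [one_mul]; exact T_norm t ht f
  · intro t f
    exact norm_M _ _
  · intro t f ht
    apply Subtype.ext
    rw [Q_coe, T_coe t ht, cut_T0 t ht f t le_rfl]; rfl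
  · intro t s f ht hs
    have h1 : M (cut t) ((f - Q t f : S) : L2) = 0 := by
      rw [Submodule.coe_sub, Q_coe, map_sub, cut_idem, sub_self]
    have h2 := far_bound t s ht hs _ h1
    rw [← T_coe s hs] at h2
    exact h2

/-- the test function -/
noncomputable def bump : L2 := indicatorConstLp 2 (s := Icc (0:ℝ) 1) measurableSet_Icc
  (by simp) (1 : ℂ)

theorem bump_coe : bump =ᵐ[volume] (Icc (0:ℝ) 1).indicator (fun _ => (1:ℂ)) :=
  indicatorConstLp_coeFn

theorem bump_mem : bump ∈ S := by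
  rw [mem_S]
  refine Lp.ext ?_
  filter_upwards [M_coe (cut 0) bump, bump_coe, Lp.coeFn_zero ℂ 2 (volume : Measure ℝ)]
    with x h1 h2 h3
  rw [h1, h2, h3, Pi.zero_apply]
  rcases lt_or_ge x 0 with h | h
  · rw [indicator_of_notMem (fun h' => absurd h'.1 (not_le.2 h)), mul_zero]
  · rw [cut_ge 0 h]; simp

theorem bump_norm : 0 < ‖bump‖ := by
  rw [bump, norm_indicatorConstLp (by norm_num) (by norm_num)]
  simp

theorem bump_bound (t : ℝ) (ht : 0 ≤ t) : ‖T0 t ht bump‖ ≤ 2 / (1 + t) * ‖bump‖ := by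
  rw [← norm_U t bump]
  refine Lp.norm_le_mul_norm_of_ae_le_mul ?_
  filter_upwards [T0_coe t ht bump, U_coe t bump, ae_sub bump_coe t] with x h1 h2 h3
  rw [h1, h2, h3]
  by_cases h : x - t ∈ Icc (0:ℝ) 1
  · have p2 : 0 < 1 + x := by linarith [h.1]
    rw [ker_ge t ht (by linarith [h.1]), norm_mul, Complex.norm_real, Real.norm_eq_abs,
      abs_of_nonneg (div_nonneg (by linarith [h.1]) p2.le)]
    refine mul_le_mul_of_nonneg_right ?_ (norm_nonneg _)
    rw [div_le_div_iff₀ p2 (by linarith)]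
    nlinarith [h.1, h.2]
  · rw [indicator_of_notMem h]; simp

theorem main : ¬ (∀ (H : Type) [NormedAddCommGroup H] [InnerProductSpace ℂ H] [CompleteSpace H]
      (T : ℝ → H →L[ℂ] H),
      T 0 = ContinuousLinearMap.id ℂ H →
      (∀ s t : ℝ, 0 ≤ s → 0 ≤ t → T (s + t) = (T s).comp (T t)) →
      (∀ x : H, ContinuousOn (fun t : ℝ => T t x) (Set.Ici 0)) →
      (∀ t : ℝ, 0 ≤ t → ‖T t‖ ≤ 1) →
      ∀ m : ℝ, 0 < m →
      (∀ x y : H,
        Filter.Tendsto (fun h : ℝ => ((h : ℂ)⁻¹) • (T h x - x))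
          (nhdsWithin 0 (Set.Ioi 0)) (nhds y) →
        ∀ μ : ℂ, μ.re < 0 → m * |μ.re| * ‖x‖ ≤ ‖μ • x - y‖) →
      ∃ m₁ : ℝ, 0 < m₁ ∧ ∀ t : ℝ, 0 ≤ t → ∀ x : H, m₁ * ‖x‖ ≤ ‖T t x‖) := by
  intro h
  obtain ⟨m₁, hm, hb⟩ := h S T T_zero T_add T_cont (fun t ht => by
    refine ContinuousLinearMap.opNorm_le_bound _ zero_le_one (fun f => ?_)
    rw [one_mul]; exact T_norm t ht f) (1 / 32) (by norm_num) gen_bound
  have ht : (0:ℝ) ≤ 2 / m₁ := by positivity
  obtain ⟨x, hx⟩ : ∃ x : S, (x : L2) = bump := ⟨⟨bump, bump_mem⟩, rfl⟩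
  have h1 := hb (2 / m₁) ht x
  have h2 := bump_bound (2 / m₁) ht
  have h3 : ‖T (2 / m₁) x‖ = ‖T0 (2 / m₁) ht bump‖ := by
    rw [← hx, ← T_coe (2 / m₁) ht x, Submodule.coe_norm]
  have h3' : ‖x‖ = ‖bump‖ := by rw [← hx, Submodule.coe_norm]
  rw [h3, h3'] at h1
  have h4 : m₁ * ‖bump‖ ≤ 2 / (1 + 2 / m₁) * ‖bump‖ := h1.trans h2
  have h5 := le_of_mul_le_mul_right h4 bump_norm
  have h6 : 0 < 1 + 2 / m₁ := by positivity
  rw [le_div_iff₀ h6] at h5
  have h7 : m₁ * (1 + 2 / m₁) = m₁ + 2 := by field_simp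
  rw [h7] at h5
  linarith

end Pool.Agent.W360.SG
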