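import Mathlib

set_option autoImplicit false

/-!
# A resolvent lower bound for semigroups with a moving support
-/

namespace Pool.Agent.W360.SG

open Filter Topology Set

variable {H : Type} [NormedAddCommGroup H] [InnerProductSpace ℂ H]

theorem right_deriv (T : ℝ → H →L[ℂ] H)
    (hadd : ∀ s t : ℝ, 0 ≤ s → 0 ≤ t → T (s + t) = (T s).comp (T t))
    {x y : H}
    (hy : Tendsto (fun h : ℝ => ((h : ℂ)⁻¹) • (T h x - x)) (𝓝[>] 0) (𝓝 y))
    {s : ℝ} (hs : 0 ≤ s) :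
    HasDerivWithinAt (fun s : ℝ => T s x) (T s y) (Ici s) s := by
  rw [← hasDerivWithinAt_Ioi_iff_Ici, hasDerivWithinAt_iff_tendsto_slope' (by simp)]
  have h1 : Tendsto (fun h : ℝ => T s (((h : ℂ)⁻¹) • (T h x - x))) (𝓝[>] 0) (𝓝 (T s y)) :=
    ((T s).continuous.tendsto y).comp hy
  have h2 : Tendsto (fun u : ℝ => u - s) (𝓝[>] s) (𝓝[>] 0) := by
    refine tendsto_nhdsWithin_iff.2 ⟨?_, ?_⟩
    · have : Tendsto (fun u : ℝ => u - s) (𝓝 s) (𝓝 (s - s)) := by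
        exact (continuous_id.sub continuous_const).tendsto s
      rw [sub_self] at this
      exact this.mono_left nhdsWithin_le_nhds
    · filter_upwards [self_mem_nhdsWithin] with u hu
      exact sub_pos.2 (Set.mem_Ioi.1 hu)
  refine (h1.comp h2).congr' ?_
  filter_upwards [self_mem_nhdsWithin] with u hu
  have hu' : 0 ≤ u - s := (sub_pos.2 hu).le
  have h3 : T u = (T s).comp (T (u - s)) := by
    rw [← hadd s (u - s) hs hu']; congr 1; ring
  simp only [Function.comp_apply, slope_def_module]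
  rw [map_smul, map_sub, h3, ContinuousLinearMap.comp_apply, ← Complex.coe_smul,
    Complex.ofReal_inv]

theorem orbit_bound (T : ℝ → H →L[ℂ] H)
    (h0 : T 0 = ContinuousLinearMap.id ℂ H)
    (hadd : ∀ s t : ℝ, 0 ≤ s → 0 ≤ t → T (s + t) = (T s).comp (T t))
    (hcont : ∀ x : H, ContinuousOn (fun t : ℝ => T t x) (Ici 0))
    (hc : ∀ t : ℝ, 0 ≤ t → ‖T t‖ ≤ 1)
    {x y : H}
    (hy : Tendsto (fun h : ℝ => ((h : ℂ)⁻¹) • (T h x - x)) (𝓝[>] 0) (𝓝 y))
    {μ : ℂ} (hμ : μ.re < 0) {t : ℝ} (ht : 0 ≤ t) :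
    ‖x - Complex.exp (-(μ * t)) • T t x‖ ≤
      (Real.exp (-μ.re * t) - 1) / (-μ.re) * ‖μ • x - y‖ := by
  have hd : 0 < -μ.re := by linarith
  have hexp : ∀ s : ℝ, HasDerivAt (fun s : ℝ => Complex.exp (-(μ * s)))
      (-μ * Complex.exp (-(μ * s))) s := by
    intro s
    have h1 : HasDerivAt (fun s : ℝ => -(μ * (s : ℂ))) (-(μ * 1)) s :=
      ((Complex.ofRealCLM.hasDerivAt (x := s)).const_mul μ).neg
    have h2 := h1.cexp
    convert h2 using 1
    ring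
  have key := image_norm_le_of_norm_deriv_right_le_deriv_boundary
    (f := fun s : ℝ => x - Complex.exp (-(μ * s)) • T s x)
    (f' := fun s : ℝ => Complex.exp (-(μ * s)) • T s (μ • x - y)) (a := 0) (b := t)
    (B := fun s => (Real.exp (-μ.re * s) - 1) / (-μ.re) * ‖μ • x - y‖)
    (B' := fun s => Real.exp (-μ.re * s) * ‖μ • x - y‖) ?_ ?_ ?_ ?_ ?_
  · exact key ⟨ht, le_refl t⟩
  · refine ContinuousOn.sub continuousOn_const (ContinuousOn.smul ?_ ?_)
    · exact (continuous_iff_continuousAt.2 fun s => (hexp s).continuousAt).continuousOn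
    · exact (hcont x).mono (fun s hs => hs.1)
  · intro s hs
    have h1 := right_deriv T hadd hy hs.1
    have h2 := ((hexp s).hasDerivWithinAt (s := Ici s)).smul h1
    have h3 := h2.const_sub x
    refine h3.congr_deriv ?_
    rw [map_sub, map_smul, smul_sub, smul_smul, neg_add_rev, ← neg_smul]
    rw [neg_mul, neg_neg, mul_comm μ]
    abel
  · simp [h0]
  · intro s
    have h1 : HasDerivAt (fun s : ℝ => -μ.re * s) (-μ.re * 1) s :=
      (hasDerivAt_id s).const_mul _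
    have h2 := (((h1.exp).sub_const 1).div_const (-μ.re)).mul_const ‖μ • x - y‖
    refine h2.congr_deriv ?_
    rw [mul_one, mul_div_cancel_right₀ _ hd.ne']
  · intro s hs
    rw [norm_smul, Complex.norm_exp]
    have h1 : (-(μ * (s : ℂ))).re = -μ.re * s := by simp
    rw [h1]
    refine mul_le_mul_of_nonneg_left ?_ (Real.exp_pos _).le
    calc ‖T s (μ • x - y)‖ ≤ ‖T s‖ * ‖μ • x - y‖ := (T s).le_opNorm _
      _ ≤ 1 * ‖μ • x - y‖ := by
          exact mul_le_mul_of_nonneg_right (hc s hs.1) (norm_nonneg _)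
      _ = _ := one_mul _

theorem resolvent_bound (T : ℝ → H →L[ℂ] H)
    (h0 : T 0 = ContinuousLinearMap.id ℂ H)
    (hadd : ∀ s t : ℝ, 0 ≤ s → 0 ≤ t → T (s + t) = (T s).comp (T t))
    (hcont : ∀ x : H, ContinuousOn (fun t : ℝ => T t x) (Ici 0))
    (hc : ∀ t : ℝ, 0 ≤ t → ‖T t‖ ≤ 1)
    (Q : ℝ → H →L[ℂ] H) (hQ1 : ∀ t x, ‖Q t x‖ ≤ ‖x‖)
    (hQ2 : ∀ t x, 0 ≤ t → Q t (T t x) = 0)
    (hQ3 : ∀ t s x, 0 ≤ t → 0 ≤ s → (1 + t) * ‖x - Q t x‖ ≤ (1 + t + s) * ‖T s (x - Q t x)‖)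
    {x y : H}
    (hy : Tendsto (fun h : ℝ => ((h : ℂ)⁻¹) • (T h x - x)) (𝓝[>] 0) (𝓝 y))
    {μ : ℂ} (hμ : μ.re < 0) : (1 / 32) * |μ.re| * ‖x‖ ≤ ‖μ • x - y‖ := by
  set d := -μ.re with hd
  have hd0 : 0 < d := by linarith
  have hne : d ≠ 0 := hd0.ne'
  set g := ‖μ • x - y‖ with hg
  have hg0 : 0 ≤ g := norm_nonneg _
  have hb := fun t (ht : (0:ℝ) ≤ t) => orbit_bound T h0 hadd hcont hc hy hμ ht
  have he1 : Real.exp 1 < 2.7182818286 := Real.exp_one_lt_d9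
  have he2 : 2.7182818283 < Real.exp 1 := Real.exp_one_gt_d9
  -- near part
  have ht0 : (0:ℝ) ≤ 1 / d := by positivity
  have hs0 : (0:ℝ) ≤ 2 / d := by positivity
  have h1 : ‖Q (1 / d) x‖ ≤ (Real.exp 1 - 1) / d * g := by
    have h2 := hb (1 / d) ht0
    rw [← hd, ← hg, mul_one_div_cancel hne] at h2
    have h3 : Q (1 / d) (x - Complex.exp (-(μ * ((1 / d : ℝ) : ℂ))) • T (1 / d) x)
        = Q (1 / d) x := by
      rw [map_sub, map_smul, hQ2 _ _ ht0, smul_zero, sub_zero]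
    rw [← h3]
    exact (hQ1 _ _).trans h2
  -- orbit at time 2/d
  have h4 : ‖T (2 / d) x‖ ≤ Real.exp (-2) * (‖x‖ + (Real.exp 2 - 1) / d * g) := by
    have h5 := hb (2 / d) hs0
    rw [← hd, ← hg, mul_div_cancel₀ _ hne] at h5
    have h6 : ‖Complex.exp (-(μ * ((2 / d : ℝ) : ℂ))) • T (2 / d) x‖
        ≤ ‖x‖ + (Real.exp 2 - 1) / d * g := by
      have := norm_sub_norm_le (Complex.exp (-(μ * ((2 / d : ℝ) : ℂ))) • T (2 / d) x) x
      rw [norm_sub_rev] at this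
      linarith
    rw [norm_smul, Complex.norm_exp] at h6
    have h7 : (-(μ * ((2 / d : ℝ) : ℂ))).re = 2 := by
      rw [Complex.neg_re, Complex.re_mul_ofReal, ← neg_mul, ← hd]
      field_simp
    rw [h7] at h6
    calc ‖T (2 / d) x‖ = Real.exp (-2) * (Real.exp 2 * ‖T (2 / d) x‖) := by
          rw [← mul_assoc, ← Real.exp_add]; simp
      _ ≤ _ := mul_le_mul_of_nonneg_left h6 (Real.exp_pos _).le
  -- far part
  have h8 : ‖x - Q (1 / d) x‖ ≤ 3 * ‖T (2 / d) (x - Q (1 / d) x)‖ := by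
    have h9 := hQ3 (1 / d) (2 / d) x ht0 hs0
    have h10 : (1 + 1 / d + 2 / d) ≤ 3 * (1 + 1 / d) := by
      have : 2 / d = 2 * (1 / d) := by ring
      rw [this]; linarith
    have h11 : (1 + 1 / d) * ‖x - Q (1 / d) x‖ ≤
        (1 + 1 / d) * (3 * ‖T (2 / d) (x - Q (1 / d) x)‖) := by
      calc _ ≤ _ := h9
        _ ≤ 3 * (1 + 1 / d) * ‖T (2 / d) (x - Q (1 / d) x)‖ :=
          mul_le_mul_of_nonneg_right h10 (norm_nonneg _)
        _ = _ := by ring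
    exact le_of_mul_le_mul_left h11 (by positivity)
  have h12 : ‖T (2 / d) (x - Q (1 / d) x)‖ ≤ ‖T (2 / d) x‖ + ‖Q (1 / d) x‖ := by
    rw [map_sub]
    refine (norm_sub_le _ _).trans (add_le_add_right ?_ _)
    calc ‖T (2 / d) (Q (1 / d) x)‖ ≤ ‖T (2 / d)‖ * ‖Q (1 / d) x‖ := (T _).le_opNorm _
      _ ≤ 1 * ‖Q (1 / d) x‖ := mul_le_mul_of_nonneg_right (hc _ hs0) (norm_nonneg _)
      _ = _ := one_mul _
  have h13 : ‖x‖ ≤ ‖Q (1 / d) x‖ + ‖x - Q (1 / d) x‖ := by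
    have := norm_add_le (Q (1 / d) x) (x - Q (1 / d) x)
    rwa [add_sub_cancel] at this
  have hE : Real.exp 2 = Real.exp 1 * Real.exp 1 := by rw [← Real.exp_add]; norm_num
  have hE2 : Real.exp (-2) * Real.exp 2 = 1 := by rw [← Real.exp_add]; simp
  have hE3 : Real.exp (-2) ≤ 0.136 := by
    have : (1:ℝ) / 0.136 ≤ Real.exp 2 := by rw [hE]; nlinarith
    have h0' : 0 < Real.exp 2 := Real.exp_pos _
    rw [Real.exp_neg]
    rw [inv_le_comm₀ h0' (by norm_num)]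
    simpa using this
  have hG : 0 ≤ g / d := by positivity
  have h1' : ‖Q (1 / d) x‖ ≤ (Real.exp 1 - 1) * (g / d) := by
    calc _ ≤ _ := h1
      _ = _ := by ring
  have h4' : ‖T (2 / d) x‖ ≤ Real.exp (-2) * ‖x‖ + (g / d) := by
    calc _ ≤ _ := h4
      _ = Real.exp (-2) * ‖x‖ + (Real.exp (-2) * Real.exp 2 - Real.exp (-2)) * (g / d) := by ring
      _ = Real.exp (-2) * ‖x‖ + (1 - Real.exp (-2)) * (g / d) := by rw [hE2]
      _ ≤ _ := by nlinarith [Real.exp_pos (-2)]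
  have h14 : ‖x‖ ≤ 32 * (g / d) := by
    have hx : 0 ≤ ‖x‖ := norm_nonneg _
    have h15 : Real.exp (-2) * ‖x‖ ≤ 0.136 * ‖x‖ := mul_le_mul_of_nonneg_right hE3 hx
    have h16 : (Real.exp 1 - 1) * (g / d) ≤ 1.72 * (g / d) :=
      mul_le_mul_of_nonneg_right (by linarith) hG
    linarith
  have h17 : |μ.re| = d := by rw [abs_of_neg hμ]
  rw [h17]
  have h18 : d * ‖x‖ ≤ 32 * g := by
    calc d * ‖x‖ ≤ d * (32 * (g / d)) := mul_le_mul_of_nonneg_left h14 hd0.le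
      _ = 32 * g := by field_simp
  linarith

end Pool.Agent.W360.SG
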