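import Pool.Agent.W360.SG.Abs

set_option autoImplicit false

/-!
# The weighted translation semigroup
-/

namespace Pool.Agent.W360.SG

open Filter Topology Set MeasureTheory

/-- the ambient space -/
abbrev L2 : Type := Lp ℂ 2 (volume : Measure ℝ)

theorem mp_sub (t : ℝ) : MeasurePreserving (fun x : ℝ => x - t) volume volume :=
  measurePreserving_sub_right volume t

/-- translation -/
noncomputable def U (t : ℝ) : L2 →L[ℂ] L2 :=
  (Lp.compMeasurePreservingₗᵢ ℂ (fun x => x - t) (mp_sub t)).toContinuousLinearMap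

theorem norm_U (t : ℝ) (f : L2) : ‖U t f‖ = ‖f‖ :=
  LinearIsometry.norm_map (Lp.compMeasurePreservingₗᵢ ℂ (fun x => x - t) (mp_sub t)) f

theorem U_coe (t : ℝ) (f : L2) : U t f =ᵐ[volume] fun x => f (x - t) :=
  Lp.coeFn_compMeasurePreserving f (mp_sub t)

theorem U_zero (f : L2) : U 0 f = f := by
  refine Lp.ext ?_
  filter_upwards [U_coe 0 f] with x hx
  rw [hx, sub_zero]

theorem U_cont (f : L2) : Tendsto (fun t : ℝ => U t f) (𝓝 0) (𝓝 f) := by
  have h : Continuous (fun t : ℝ => U t f) := by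
    have hg : Continuous (fun t : ℝ => (⟨fun x => x - t, by fun_prop⟩ : C(ℝ, ℝ))) := by
      refine ContinuousMap.continuous_of_continuous_uncurry _ ?_
      simp only [Function.uncurry_def, ContinuousMap.coe_mk]
      fun_prop
    exact Continuous.compMeasurePreservingLp (μ := (volume : Measure ℝ))
      (ν := (volume : Measure ℝ)) (p := 2) (E := ℂ)
      (f := fun _ : ℝ => f) continuous_const hg (fun t => mp_sub t) (by norm_num)
  have h1 := h.tendsto 0
  rwa [U_zero] at h1

/-- bounded real multipliers -/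
structure Mul1 where
  /-- the function -/
  φ : ℝ → ℝ
  meas : Measurable φ
  bd : ∀ x, |φ x| ≤ 1

theorem mul_mem (φ : Mul1) (f : L2) : MemLp (fun x => (φ.φ x : ℂ) * f x) 2 volume :=
  MemLp.of_le (Lp.memLp f)
    ((Complex.measurable_ofReal.comp φ.meas).aestronglyMeasurable.mul (Lp.aestronglyMeasurable f))
    (Filter.Eventually.of_forall fun x => by
      rw [norm_mul, Complex.norm_real, Real.norm_eq_abs]
      exact mul_le_of_le_one_left (norm_nonneg _) (φ.bd x))

/-- multiplication as a function -/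
noncomputable def mulF (φ : Mul1) (f : L2) : L2 := (mul_mem φ f).toLp _

theorem mulF_coe (φ : Mul1) (f : L2) : mulF φ f =ᵐ[volume] fun x => (φ.φ x : ℂ) * f x :=
  (mul_mem φ f).coeFn_toLp

theorem mulF_norm (φ : Mul1) (f : L2) : ‖mulF φ f‖ ≤ 1 * ‖f‖ := by
  refine Lp.norm_le_mul_norm_of_ae_le_mul ?_
  filter_upwards [mulF_coe φ f] with x hx
  rw [hx, norm_mul, Complex.norm_real, Real.norm_eq_abs]
  exact mul_le_mul_of_nonneg_right (φ.bd x) (norm_nonneg _)

/-- A multiplication operator. -/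
noncomputable def M (φ : Mul1) : L2 →L[ℂ] L2 :=
  LinearMap.mkContinuous
    { toFun := mulF φ
      map_add' := by
        intro f g
        refine Lp.ext ?_
        filter_upwards [mulF_coe φ f, mulF_coe φ g, mulF_coe φ (f + g), Lp.coeFn_add f g,
          Lp.coeFn_add (mulF φ f) (mulF φ g)] with x h1 h2 h3 h4 h5
        rw [h3, h5, h4, Pi.add_apply, Pi.add_apply, h1, h2, mul_add]
      map_smul' := by
        intro c f
        refine Lp.ext ?_
        filter_upwards [mulF_coe φ f, mulF_coe φ (c • f), Lp.coeFn_smul c f,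
          Lp.coeFn_smul c (mulF φ f)] with x h1 h2 h3 h4
        rw [h2, RingHom.id_apply, h4, h3, Pi.smul_apply, Pi.smul_apply, h1, smul_eq_mul,
          smul_eq_mul]
        ring } 1 (mulF_norm φ)

theorem M_coe (φ : Mul1) (f : L2) : M φ f =ᵐ[volume] fun x => (φ.φ x : ℂ) * f x :=
  mulF_coe φ f

theorem norm_M (φ : Mul1) (f : L2) : ‖M φ f‖ ≤ ‖f‖ := by
  have := mulF_norm φ f
  rwa [one_mul] at this

/-- cut-off to `(-∞, t)` -/
noncomputable def cut (t : ℝ) : Mul1 where
  φ := (Iio t).indicator 1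
  meas := measurable_one.indicator measurableSet_Iio
  bd := fun x => by
    by_cases h : x ∈ Iio t
    · rw [indicator_of_mem h]; simp
    · rw [indicator_of_notMem h]; simp

/-- the cocycle -/
noncomputable def ker (t : ℝ) (ht : 0 ≤ t) : Mul1 where
  φ := (Ici t).indicator (fun x => (1 + x - t) / (1 + x))
  meas := by
    refine Measurable.indicator ?_ measurableSet_Ici
    fun_prop
  bd := fun x => by
    by_cases h : x ∈ Ici t
    · rw [indicator_of_mem h]
      have hx : t ≤ x := h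
      have h1 : 0 < 1 + x := by linarith
      rw [abs_of_nonneg (div_nonneg (by linarith) h1.le), div_le_one h1]
      linarith
    · rw [indicator_of_notMem h]; simp


theorem ker_ge (t : ℝ) (ht : 0 ≤ t) {x : ℝ} (h : t ≤ x) :
    (ker t ht).φ x = (1 + x - t) / (1 + x) := by
  show (Ici t).indicator (fun x => (1 + x - t) / (1 + x)) x = _
  rw [indicator_of_mem (Set.mem_Ici.2 h)]

theorem ker_lt (t : ℝ) (ht : 0 ≤ t) {x : ℝ} (h : x < t) : (ker t ht).φ x = 0 := by
  show (Ici t).indicator (fun x => (1 + x - t) / (1 + x)) x = _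
  rw [indicator_of_notMem (fun h' => absurd (Set.mem_Ici.1 h') (not_le.2 h))]

theorem cut_lt (t : ℝ) {x : ℝ} (h : x < t) : (cut t).φ x = 1 := by
  show (Iio t).indicator 1 x = _
  rw [indicator_of_mem (Set.mem_Iio.2 h), Pi.one_apply]

theorem cut_ge (t : ℝ) {x : ℝ} (h : t ≤ x) : (cut t).φ x = 0 := by
  show (Iio t).indicator 1 x = _
  rw [indicator_of_notMem (fun h' => absurd (Set.mem_Iio.1 h') (not_lt.2 h))]

/-- weighted translation -/
noncomputable def T0 (t : ℝ) (ht : 0 ≤ t) : L2 →L[ℂ] L2 := (M (ker t ht)).comp (U t)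

theorem T0_coe (t : ℝ) (ht : 0 ≤ t) (f : L2) :
    T0 t ht f =ᵐ[volume] fun x => ((ker t ht).φ x : ℂ) * f (x - t) := by
  filter_upwards [M_coe (ker t ht) (U t f), U_coe t f] with x h1 h2
  rw [T0, ContinuousLinearMap.comp_apply, h1, h2]

theorem norm_T0 (t : ℝ) (ht : 0 ≤ t) (f : L2) : ‖T0 t ht f‖ ≤ ‖f‖ :=
  (norm_M _ _).trans (norm_U t f).le

theorem ae_sub {P : ℝ → Prop} (h : ∀ᵐ x : ℝ, P x) (t : ℝ) : ∀ᵐ x : ℝ, P (x - t) :=
  (mp_sub t).quasiMeasurePreserving.ae h

theorem T0_add (s t : ℝ) (hs : 0 ≤ s) (ht : 0 ≤ t) (f : L2) :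
    T0 (s + t) (add_nonneg hs ht) f = T0 s hs (T0 t ht f) := by
  refine Lp.ext ?_
  filter_upwards [T0_coe (s + t) (add_nonneg hs ht) f, T0_coe s hs (T0 t ht f),
    ae_sub (T0_coe t ht f) s] with x h1 h2 h3
  rw [h1, h2, h3, sub_sub, ← mul_assoc, ← Complex.ofReal_mul]
  congr 2
  by_cases h : s + t ≤ x
  · have e1 : (ker (s + t) (add_nonneg hs ht)).φ x = (1 + x - (s + t)) / (1 + x) :=
      ker_ge _ _ h
    have e2 : (ker s hs).φ x = (1 + x - s) / (1 + x) :=
      ker_ge _ _ (by linarith)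
    have e3 : (ker t ht).φ (x - s) = (1 + (x - s) - t) / (1 + (x - s)) :=
      ker_ge _ _ (by linarith)
    rw [e1, e2, e3]
    have p1 : (1 + x) ≠ 0 := by
      have : 0 < 1 + x := by linarith
      exact this.ne'
    have p2 : (1 + (x - s)) ≠ 0 := by
      have : 0 < 1 + (x - s) := by linarith
      exact this.ne'
    field_simp
    ring
  · have e1 : (ker (s + t) (add_nonneg hs ht)).φ x = 0 :=
      ker_lt _ _ (not_le.1 h)
    have e3 : (ker t ht).φ (x - s) = 0 :=
      ker_lt _ _ (by have := not_le.1 h; linarith)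
    rw [e1, e3, mul_zero]

theorem cut_T0 (t : ℝ) (ht : 0 ≤ t) (f : L2) (s : ℝ) (hs : s ≤ t) : M (cut s) (T0 t ht f) = 0 := by
  refine Lp.ext ?_
  filter_upwards [M_coe (cut s) (T0 t ht f), T0_coe t ht f, Lp.coeFn_zero ℂ 2 (volume : Measure ℝ)]
    with x h1 h2 h3
  rw [h1, h2, h3, Pi.zero_apply]
  by_cases h : x < s
  · have e1 : (ker t ht).φ x = 0 :=
      ker_lt _ _ (by linarith)
    rw [e1]; simp
  · have e1 : (cut s).φ x = 0 := cut_ge _ (not_lt.1 h)
    rw [e1]; simp

theorem T0_zero (f : L2) (hf : M (cut 0) f = 0) : T0 0 le_rfl f = f := by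
  refine Lp.ext ?_
  have h0 := M_coe (cut 0) f
  rw [hf] at h0
  filter_upwards [T0_coe 0 le_rfl f, h0, Lp.coeFn_zero ℂ 2 (volume : Measure ℝ)] with x h1 h2 h3
  rw [h1, sub_zero]
  by_cases h : x < 0
  · have e1 : (cut 0).φ x = 1 := cut_lt _ h
    rw [h3, e1] at h2
    simp only [Pi.zero_apply, Complex.ofReal_one, one_mul] at h2
    rw [← h2, mul_zero]
  · have e1 : (ker 0 le_rfl).φ x = (1 + x - 0) / (1 + x) :=
      ker_ge _ _ (not_lt.1 h)
    have p1 : (1 + x) ≠ 0 := by
      have : 0 < 1 + x := by linarith [not_lt.1 h]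
      exact this.ne'
    rw [e1, sub_zero, div_self p1]; simp

theorem far_bound (t s : ℝ) (ht : 0 ≤ t) (hs : 0 ≤ s) (f : L2) (hf : M (cut t) f = 0) :
    (1 + t) * ‖f‖ ≤ (1 + t + s) * ‖T0 s hs f‖ := by
  have h0 := M_coe (cut t) f
  rw [hf] at h0
  have h1 : ‖U s f‖ ≤ ((1 + t + s) / (1 + t)) * ‖T0 s hs f‖ := by
    refine Lp.norm_le_mul_norm_of_ae_le_mul ?_
    filter_upwards [T0_coe s hs f, U_coe s f, ae_sub h0 s,
      ae_sub (Lp.coeFn_zero ℂ 2 (volume : Measure ℝ)) s] with x h1 h2 h3 h4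
    rw [h1, h2]
    have p1 : 0 < 1 + t := by linarith
    by_cases h : x - s < t
    · have e1 : (cut t).φ (x - s) = 1 := cut_lt _ h
      rw [h4, e1] at h3
      simp only [Pi.zero_apply, Complex.ofReal_one, one_mul] at h3
      rw [← h3]; simp
    · have h' := not_lt.1 h
      have e1 : (ker s hs).φ x = (1 + x - s) / (1 + x) :=
        ker_ge _ _ (by linarith)
      have p2 : 0 < 1 + x := by linarith
      have p3 : 0 ≤ (1 + x - s) / (1 + x) := div_nonneg (by linarith) p2.le
      rw [e1, norm_mul, Complex.norm_real, Real.norm_eq_abs, abs_of_nonneg p3, ← mul_assoc]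
      refine le_mul_of_one_le_left (norm_nonneg _) ?_
      rw [div_mul_div_comm, one_le_div (by positivity)]
      nlinarith
  rw [norm_U] at h1
  have p1 : 0 < 1 + t := by linarith
  calc (1 + t) * ‖f‖ ≤ (1 + t) * (((1 + t + s) / (1 + t)) * ‖T0 s hs f‖) :=
        mul_le_mul_of_nonneg_left h1 p1.le
    _ = _ := by field_simp

end Pool.Agent.W360.SG
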